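import Pool.Agent.H31.CR

open Pool.Agent.H31.CR

theorem Pool.Agent.Results.MP_df2171_co.Main.result :
    ∃ (P : Type) (φ : ClosureOperator (Set P)), φ ∅ = ∅ ∧ SemilatticeType φ ∧
      IsLat (Clop φ) ∧ Clop φ ≠ Reg φ :=
  ⟨ℕ, φ, φ_empty, sl, lat, ne⟩
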